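import Pool.Agent.V11319.HC.Count

set_option autoImplicit false

/-!
# Irreducible plane curves with h-constant close to `-9/4`

The curve of degree `2 a + 2` (`a` divisible by `3`) is the image of the torus curve `x = y ^ a`
of `{x y z = 1}` under the quotient by the symmetric group, in the coordinates
`x + y + z`, `x y + x z + y z`.  It is rational, with `(a ^ 2 + a) / 3` triple points and
`a ^ 2 - 1` double points at parameters which are roots of unity.
-/

namespace Pool.Agent.Results.MP_81ecef_ag.BelowMinusTwo

open Pool.Agent.V11319.HC

/-- For every real `c < 9 / 4` (in particular for `c = 2`) some irreducible singular complex plane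
curve has h-constant less than `-c`. -/
theorem result : ∀ c : ℝ, c < 9 / 4 → ∃ (d : ℕ) (F : MvPolynomial (Fin 3) ℂ),
    F.IsHomogeneous d ∧ Irreducible F ∧ (sing F).Finite ∧ (sing F).Nonempty ∧ hC d F < -c :=
  fun c hc => main c hc

end Pool.Agent.Results.MP_81ecef_ag.BelowMinusTwo
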